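import Pool.Agent.Helper81.MIT.Top7
import Pool.Agent.Helper81.H3.P12
import Pool.Agent.Helper30.W2.Cells12
import Pool.Agent.Helper81.HD.C12

/-!
The class `12` of two or three orders at least `10`.
-/

set_option autoImplicit false
noncomputable section
namespace Pool.Agent.Helper81.FIN

open Pool.Agent.Helper81.MIT
open Pool.Agent.Helper6.MONO (FinAt)

/-- **THE CLASS `(12, q, r)`, `10 ≤ q ≤ r`** -/
theorem fin12 : ∀ q r : ℕ, 10 ≤ q → 12 ≤ q → q ≤ r → FinAt 12 q r :=
  fin_p (by norm_num) (by norm_num)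
    ⟨fun h => absurd h (by norm_num), fun _ => Pool.Agent.Helper30.W2.P12.win Pool.Agent.Helper30.W2.P12.cells⟩
    (H3S.of Pool.Agent.Helper81.H3.h3_12) Pool.Agent.Helper81.HD.hds_12

end Pool.Agent.Helper81.FIN
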