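import Pool.Agent.Helper50.CXA.Ex3
import Pool.Agent.Helper81.OT.H2P9
import Pool.Agent.Helper81.T14.N
import Pool.Agent.Helper81.FIN.P3
import Pool.Agent.Helper81.FIN.P4
import Pool.Agent.Helper81.FIN.P5
import Pool.Agent.Helper81.FIN.P6
import Pool.Agent.Helper81.FIN.P7
import Pool.Agent.Helper81.FIN.P8
import Pool.Agent.Helper81.FIN.P9
import Pool.Agent.Helper81.FIN.P10
import Pool.Agent.Helper81.FIN.P11
import Pool.Agent.Helper81.FIN.P12
import Pool.Agent.Helper81.FIN.P13

/-!
THE FINAL STATEMENT: all triples.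
-/

set_option autoImplicit false
noncomputable section
namespace Pool.Agent.Helper81.FIN

open Pool.Agent.Helper81.MIT
open Pool.Agent.Helper6.MONO (FinAt)
open Pool.Agent.Helper6.MONO (ST_FIN)

/-- **ALL TRIPLES** -/
theorem st_fin : ST_FIN := by
  refine top7 Pool.Agent.Helper50.EX3.fin_ex3 ?_ ?_ Pool.Agent.Helper81.T14.fin14
  · exact fun a b h1 h2 h3 h4 r hr => Pool.Agent.Helper81.OT.h2s_9 a b h1 h2 h3 h4 (Or.inl h2) r hr
  · intro p hp hp13
    interval_cases p
    · exact fin3
    · exact fin4
    · exact fin5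
    · exact fin6
    · exact fin7
    · exact fin8
    · exact fin9
    · exact fin10
    · exact fin11
    · exact fin12
    · exact fin13

end Pool.Agent.Helper81.FIN
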