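import Pool.Agent.Helper81.FIN.Le10
import Pool.Agent.Helper81.FIN.P11
import Pool.Agent.Helper81.OT.H2P9

/-!
THE LADDER, `P = 11`: the final statement for all triples with smallest order at most `11`.
-/

set_option autoImplicit false
noncomputable section
namespace Pool.Agent.Helper81.FIN

open Pool.Agent.Helper81.MIT
open Pool.Agent.Helper6.MONO (FinAt)

/-- **SMALLEST ORDER AT MOST `11`** -/
theorem fin_le_11 : ∀ p q r : ℕ, 3 ≤ p → p ≤ q → q ≤ r → p ≤ 11 → ¬ (p = 3 ∧ q = 3 ∧ r = 3) →
    FinAt p q r := by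
  refine fin_le7 (P := 11) (by norm_num) Pool.Agent.Helper50.EX3.fin_ex3 ?_ ?_
  · exact fun a b h1 h2 h3 h4 _ => Pool.Agent.Helper81.OT.h2s_9 a b h1 h2 h3 h4 (Or.inl h2)
  · intro p hp hp3
    interval_cases p
    · exact fin3
    · exact fin4
    · exact fin5
    · exact fin6
    · exact fin7
    · exact fin8
    · exact fin9
    · exact fin10
    · exact fin11

end Pool.Agent.Helper81.FIN
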