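import Pool.Agent.Helper81.FIN.P3
import Pool.Agent.Helper81.OT.H2a
import Pool.Agent.Helper50.CXA.Ex3

/-!
THE LADDER, `P = 3`: the final statement for all triples with smallest order `3`.
-/

set_option autoImplicit false
noncomputable section
namespace Pool.Agent.Helper81.FIN

open Pool.Agent.Helper81.MIT
open Pool.Agent.Helper6.MONO (FinAt)
open Pool.Agent.Helper84.ST (qxS_of)

/-- **SMALLEST ORDER AT MOST `3`** -/
theorem fin_le_3 : ∀ p q r : ℕ, 3 ≤ p → p ≤ q → q ≤ r → p ≤ 3 → ¬ (p = 3 ∧ q = 3 ∧ r = 3) →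
    FinAt p q r := by
  refine fin_le7 (P := 3) (by norm_num) Pool.Agent.Helper50.EX3.fin_ex3 ?_ ?_
  · exact fun a b h1 h2 h3 h4 h r hr => qxS_of (Pool.Agent.Helper81.OT.h2_3 a b h1 h2 h3 h4 h r hr)
  · intro p hp hp3
    obtain rfl : p = 3 := by omega
    exact fin3

end Pool.Agent.Helper81.FIN
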