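import Pool.Agent.Helper81.FIN.Le5
import Pool.Agent.Helper81.FIN.P6
import Pool.Agent.Helper81.OT.H2P6

/-!
THE LADDER, `P = 6`: the final statement for all triples with smallest order at most `6`.
-/

set_option autoImplicit false
noncomputable section
namespace Pool.Agent.Helper81.FIN

open Pool.Agent.Helper81.MIT
open Pool.Agent.Helper6.MONO (FinAt)

/-- **SMALLEST ORDER AT MOST `6`** -/
theorem fin_le_6 : ∀ p q r : ℕ, 3 ≤ p → p ≤ q → q ≤ r → p ≤ 6 → ¬ (p = 3 ∧ q = 3 ∧ r = 3) →
    FinAt p q r := by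
  refine fin_le7 (P := 6) (by norm_num) Pool.Agent.Helper50.EX3.fin_ex3 ?_ ?_
  · exact Pool.Agent.Helper81.OT.h2s_6
  · intro p hp hp3
    interval_cases p
    · exact fin3
    · exact fin4
    · exact fin5
    · exact fin6

end Pool.Agent.Helper81.FIN
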